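import Mathlib
import Pool.Agent.H18.PiBase2

open Set Filter Topology

namespace Pool.Agent.Results.MP_235f01_an.Uncond

/-- The super alternative Daugavet property. -/
def SuperADP (X : Type) [NormedAddCommGroup X] [NormedSpace ℝ X] : Prop :=
  ¬ FiniteDimensional ℝ X ∧ ∀ x : X, ‖x‖ = 1 → ∀ W : Set (WeakSpace ℝ X), IsOpen W →
    (∃ y : X, ‖y‖ ≤ 1 ∧ toWeakSpace ℝ X y ∈ W) →
      sSup ((fun y => max ‖x + y‖ ‖x - y‖) '' {y : X | ‖y‖ ≤ 1 ∧ toWeakSpace ℝ X y ∈ W}) = 2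

/-- `e` is a 1-unconditional Schauder basis. -/
def OneUncond {X : Type} [NormedAddCommGroup X] [NormedSpace ℝ X] (e : ℕ → X) : Prop :=
  (∀ x : X, ∃! a : ℕ → ℝ, Tendsto (fun N => ∑ n ∈ Finset.range N, a n • e n) atTop (𝓝 x)) ∧
    ∀ (s : Finset ℕ) (a ε : ℕ → ℝ), (∀ n, ε n = 1 ∨ ε n = -1) →
      ‖∑ n ∈ s, (ε n * a n) • e n‖ = ‖∑ n ∈ s, a n • e n‖

lemma step {X : Type} [NormedAddCommGroup X] [NormedSpace ℝ X] (h : SuperADP X) (z : X) (hz : z ≠ 0)
    {W : Set (WeakSpace ℝ X)} (hW : IsOpen W) (hne : ∃ y : X, ‖y‖ ≤ 1 ∧ toWeakSpace ℝ X y ∈ W) {ε : ℝ}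
    (hε : 0 < ε) : ∃ v : X, ‖v‖ ≤ 1 ∧ (toWeakSpace ℝ X v ∈ W ∨ toWeakSpace ℝ X (-v) ∈ W) ∧
      ‖z‖ + 1 - ε ≤ ‖z + v‖ := by
  have hr : 0 < ‖z‖ := norm_pos_iff.2 hz
  have h1 : ‖‖z‖⁻¹ • z‖ = 1 := by rw [norm_smul, norm_inv, norm_norm, inv_mul_cancel₀ hr.ne']
  have hd : 0 < ε / (‖z‖ + 1) := by positivity
  obtain ⟨_, ⟨y, hy, rfl⟩, h2⟩ := exists_lt_of_lt_csSup (Nonempty.image _ hne)
    ((sub_lt_self 2 hd).trans_eq (h.2 _ h1 W hW hne).symm)
  obtain ⟨v, h3, h4, h5⟩ : ∃ v : X, ‖v‖ ≤ 1 ∧ (toWeakSpace ℝ X v ∈ W ∨ toWeakSpace ℝ X (-v) ∈ W) ∧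
      2 - ε / (‖z‖ + 1) < ‖‖z‖⁻¹ • z + v‖ := by
    rcases lt_max_iff.1 h2 with h3 | h3
    · exact ⟨y, hy.1, Or.inl hy.2, h3⟩
    · exact ⟨-y, by simpa using hy.1, Or.inr (by simpa using hy.2), by rwa [← sub_eq_add_neg]⟩
  refine ⟨v, h3, h4, ?_⟩
  obtain ⟨f, hf, hf'⟩ := exists_dual_vector'' ℝ (‖z‖⁻¹ • z + v)
  have hb : ∀ w : X, f w ≤ ‖w‖ := fun w => (le_abs_self _).trans ((f.le_opNorm w).trans
    (mul_le_of_le_one_left (norm_nonneg _) hf))
  have h6 : ‖z‖⁻¹ * f z + f v = ‖‖z‖⁻¹ • z + v‖ := by simpa using hf'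
  have h7 := hb (z + v)
  have h8 := hb v
  have h9 := hb (‖z‖⁻¹ • z)
  rw [map_smul, h1, smul_eq_mul] at h9
  rw [map_add] at h7
  have h10 : f z = ‖z‖ * (‖z‖⁻¹ * f z) := by field_simp
  have h11 : ε = (‖z‖ + 1) * (ε / (‖z‖ + 1)) := by field_simp
  nlinarith

/-- No Banach space with a 1-unconditional basis has the super ADP. -/
theorem result (X : Type) [NormedAddCommGroup X] [NormedSpace ℝ X] [CompleteSpace X] (e : ℕ → X)
    (he : OneUncond e) : ¬ SuperADP X := by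
  intro h
  have h2 := fun s a ε hε => (he.2 s a ε hε).le
  obtain ⟨c, hc⟩ := H18.PiBase.exists_UB e (by simpa only [H18.PiBase.hasSum_iff h2] using he.1) h2
  obtain ⟨U, hU, hU'⟩ := H18.PiBase.main hc
  have hne : ∀ n, ∃ y : X, ‖y‖ ≤ 1 ∧ toWeakSpace ℝ X y ∈ U n := fun n => by
    obtain ⟨_, h3, y, hy, rfl⟩ := (hU n).2
    exact ⟨y, by simpa using hy, h3⟩
  haveI : Nontrivial X := not_subsingleton_iff_nontrivial.1 fun _ => h.1 inferInstance
  obtain ⟨x0, hx0⟩ := exists_norm_eq X zero_le_one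
  choose! v hv using fun (n : ℕ) (z : X) (hz : z ≠ 0) => step h z hz (hU n).1 (hne n)
    (show (0 : ℝ) < (1 / 2) ^ n / 8 by positivity)
  let z : ℕ → X := fun n => Nat.rec x0 (fun n w => w + v n w) n
  have hz : ∀ n : ℕ, n + 3 / 4 + (1 / 2) ^ n / 4 ≤ ‖z n‖ := fun n => by
    induction n with
    | zero => simp [z, hx0]; norm_num
    | succ n ih =>
      have := (hv n (z n) (norm_pos_iff.1 (lt_of_lt_of_le (by positivity) ih))).2.2
      push_cast
      rw [pow_succ]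
      exact le_trans (by linarith) this
  have hv' := fun n => hv n (z n) (norm_pos_iff.1 (lt_of_lt_of_le (by positivity) (hz n)))
  obtain ⟨f, hf⟩ := IsCompact.nonempty_iInter_of_sequence_nonempty_isCompact_isClosed
    (fun n => (WeakDual.toStrongDual ⁻¹' Metric.closedBall (0 : StrongDual ℝ X) 1) ∩
      {f | ∀ i < n, 3 / 4 ≤ f (v i (z i))})
    (fun n => inter_subset_inter_right _ fun f hf i hi => hf i (hi.trans n.lt_succ_self))
    (fun n => by
      obtain ⟨f, hf, hf'⟩ := exists_dual_vector'' ℝ (z n)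
      have hb : ∀ w : X, ‖w‖ ≤ 1 → f w ≤ 1 := fun w hw => (le_abs_self _).trans ((f.le_opNorm w).trans
        (mul_le_one₀ hf (norm_nonneg _) hw))
      refine ⟨StrongDual.toWeakDual f, by simpa using hf, fun i hi => ?_⟩
      have h3 : ∀ m : ℕ, f (z m) ≤ m + 1 ∧ (i < m → f (z m) ≤ m + f (v i (z i))) := fun m => by
        induction m with
        | zero => exact ⟨by simpa [z] using hb x0 hx0.le, fun h => absurd h (Nat.not_lt_zero _)⟩
        | succ m ih =>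
          rw [show z (m + 1) = z m + v m (z m) from rfl, map_add]
          have := hb _ (hv' m).1
          push_cast
          refine ⟨by linarith [ih.1], fun h => ?_⟩
          rcases Nat.lt_succ_iff_lt_or_eq.1 h with h | rfl
          · linarith [ih.2 h]
          · linarith [ih.1]
      have h4 := (h3 n).2 hi
      have h5 : f (z n) = ‖z n‖ := hf'
      have h6 := hz n
      have h7 : (0 : ℝ) < (1 / 2) ^ n / 4 := by positivity
      show 3 / 4 ≤ f (v i (z i))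
      linarith)
    (by simpa using WeakDual.isCompact_closedBall (0 : StrongDual ℝ X) 1)
    (fun n => (WeakDual.isClosed_closedBall _ _).inter (by
      simp only [setOf_forall]
      exact isClosed_iInter fun i => isClosed_iInter fun _ =>
        isClosed_le continuous_const (WeakDual.eval_continuous _)))
  have hc : Continuous fun w : WeakSpace ℝ X => WeakDual.toStrongDual f ((toWeakSpace ℝ X).symm w) :=
    WeakBilin.eval_continuous (topDualPairing ℝ X).flip (WeakDual.toStrongDual f)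
  obtain ⟨n, hn⟩ := hU' {w | |WeakDual.toStrongDual f ((toWeakSpace ℝ X).symm w)| < 1 / 2}
    (isOpen_lt hc.abs continuous_const) ⟨0, by simp, 0, by simp, map_zero _⟩
  have h3 : 3 / 4 ≤ WeakDual.toStrongDual f (v n (z n)) := (mem_iInter.1 hf (n + 1)).2 n n.lt_succ_self
  rcases (hv' n).2.1 with h4 | h4
  · have h5 : |WeakDual.toStrongDual f (v n (z n))| < 1 / 2 := hn ⟨h4, _, by simpa using (hv' n).1, rfl⟩
    linarith [le_abs_self (WeakDual.toStrongDual f (v n (z n)))]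
  · have h5 : |WeakDual.toStrongDual f (-v n (z n))| < 1 / 2 :=
      hn ⟨h4, -v n (z n), by simpa using (hv' n).1, rfl⟩
    rw [map_neg, abs_neg] at h5
    linarith [le_abs_self (WeakDual.toStrongDual f (v n (z n)))]

end Pool.Agent.Results.MP_235f01_an.Uncond
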